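import Mathlib
import Pool.Agent.P.MP_3f2786_lc.Defs
import Pool.Agent.P.MP_3f2786_lc.Pattern

set_option autoImplicit false

open Pool.Agent.P.MP_3f2786_lc

namespace Pool.Agent.Results.MP_3f2786_lc.NotLearnable

/-- Over a finite alphabet with at least three letters no learner, computable or not, identifies
every E-pattern language in the limit from every text. -/
theorem result (A : Type) [Fintype A] (hA : 3 ≤ Fintype.card A) :
    ¬ ∃ S : List (List A) → List (ℕ ⊕ A),
      ∀ α : List (ℕ ⊕ A), α ≠ [] → ∀ t : ℕ → List A, Set.range t = lang α →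
        ∃ (N : ℕ) (β : List (ℕ ⊕ A)), lang β = lang α ∧
          ∀ n, N ≤ n → S ((List.range n).map t) = β :=
  main A hA

end Pool.Agent.Results.MP_3f2786_lc.NotLearnable
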